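import Mathlib
import Pool.Agent.H116.Ibn
import Pool.Agent.H116.ParentTree

/-!
# `i_h - i_bn` is unbounded, already on trees
-/

namespace Pool.Agent.Results.MP_511249_co.UnboundedOnTrees

open SimpleGraph Finset Pool.Agent.H116.Ibn Pool.Agent.H116.ParentTree

section general

variable {V : Type} [Fintype V] {G : SimpleGraph V}

theorem maxH_exists [Nontrivial V] (hc : G.Connected) : ∃ f : V → ℕ, MaxH G f := by
  classical
  obtain ⟨c⟩ := hc.nonempty
  let f : V → ℕ := fun v => if v = c then ecc G c else 0
  have hfc : ∀ v, 0 < f v → v = c := by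
    intro v hv
    by_contra h
    simp [f, h] at hv
  refine ⟨f, ?_, ?_, ?_⟩
  · rw [isBroadcast_iff]
    intro v
    by_cases h : v = c
    · subst h; simp [f]
    · simp [f, h]
  · intro u v hu huv hh
    exact huv ((hfc u hu).trans (hfc v hh.1).symm)
  · intro g hg hfg hne hgi
    rw [isBroadcast_iff] at hg
    obtain ⟨x, hx⟩ : ∃ x, g x ≠ f x := by
      by_contra hall
      push Not at hall
      exact hne (funext hall)
    have hlt : f x < g x := lt_of_le_of_ne (hfg x) (Ne.symm hx)
    have hgc : f c ≤ g c := hfg c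
    have hfcc : f c = ecc G c := by simp [f]
    have hxc : x ≠ c := by
      rintro rfl
      have := hg x
      omega
    have hpos := ecc_pos hc c
    exact hgi x c (by omega) hxc ⟨by omega, by have := dist_le_ecc (G := G) x c; omega⟩

theorem maxH_cover [Nontrivial V] (hc : G.Connected) {f : V → ℕ} (hf : MaxH G f) :
    ∀ x, ∃ v, 0 < f v ∧ G.dist x v ≤ f v := by
  classical
  intro x
  by_contra hno
  push Not at hno
  have hfx : f x = 0 := by
    by_contra h
    have h1 := hno x (Nat.pos_of_ne_zero h)
    rw [SimpleGraph.dist_self] at h1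
    omega
  have hb := (isBroadcast_iff f).1 hf.1
  let g : V → ℕ := Function.update f x 1
  have hgx : g x = 1 := by simp [g]
  have hgy : ∀ y, y ≠ x → g y = f y := by intro y hy; simp [g, hy]
  apply hf.2.2 g
  · rw [isBroadcast_iff]
    intro v
    by_cases h : v = x
    · subst h
      rw [hgx]
      exact ecc_pos hc v
    · rw [hgy v h]; exact hb v
  · intro v
    show f v ≤ g v
    by_cases h : v = x
    · subst h; omega
    · rw [hgy v h]
  · intro h
    have := congrFun h x
    omega
  · intro u v hu huv hh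
    obtain ⟨h1, h2⟩ := hh
    by_cases hvx : v = x
    · subst hvx
      rw [hgx] at h2
      rw [hgy u huv] at hu
      have h3 := hno u hu
      rw [G.dist_comm] at h3
      omega
    · rw [hgy v hvx] at h1 h2
      by_cases hux : u = x
      · subst hux
        have := hno v h1
        omega
      · rw [hgy u hux] at hu
        exact hf.2.1 u v hu huv ⟨h1, h2⟩

theorem maxH_partner [Nontrivial V] {f : V → ℕ} (hf : MaxH G f) :
    ∀ v, 0 < f v → (∀ u, 0 < f u → u = v) ∨
      ∃ u, 0 < f u ∧ u ≠ v ∧ G.dist u v ≤ f v + 1 := by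
  classical
  intro v hv
  have hb := (isBroadcast_iff f).1 hf.1
  by_cases he : f v = ecc G v
  · left
    intro u hu
    by_contra huv
    apply hf.2.1 u v hu huv
    exact ⟨hv, by rw [he]; exact dist_le_ecc u v⟩
  · right
    let g : V → ℕ := Function.update f v (f v + 1)
    have hgv : g v = f v + 1 := by simp [g]
    have hgy : ∀ y, y ≠ v → g y = f y := by intro y hy; simp [g, hy]
    have hnot := hf.2.2 g (by
      rw [isBroadcast_iff]
      intro w
      by_cases h : w = v
      · subst h
        have := hb w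
        omega
      · rw [hgy w h]; exact hb w) (by
      intro w
      show f w ≤ g w
      by_cases h : w = v
      · subst h; omega
      · rw [hgy w h]) (by
      intro h
      have := congrFun h v
      omega)
    unfold HIndep at hnot
    push Not at hnot
    obtain ⟨a, b, ha, hab, h1, h2⟩ := hnot
    by_cases hbv : b = v
    · subst hbv
      rw [hgy a hab] at ha
      exact ⟨a, ha, hab, by omega⟩
    · exfalso
      rw [hgy b hbv] at h1 h2
      have ha' : 0 < f a := by
        by_cases h : a = v
        · rw [h]; exact hv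
        · rw [hgy a h] at ha; exact ha
      exact hf.2.1 a b ha' hab ⟨h1, h2⟩

end general

/-! ### The tree -/

/-- Vertices: a path with `9M` vertices, and at each of `2M` centres `N` pendant paths with two
further vertices `b`, `l`. -/
inductive Vx (M N : ℕ) : Type
  | p (i : Fin (9 * M))
  | b (c : Fin (2 * M)) (n : Fin N)
  | l (c : Fin (2 * M)) (n : Fin N)
  deriving DecidableEq, Fintype

open Vx

/-- Positions of the centres: `2, 6, 11, 15, 20, 24, …` -/
def cpos (c : ℕ) : ℕ := 4 * c + c / 2 + 2

theorem cpos_lt {M : ℕ} (c : Fin (2 * M)) : cpos c.val < 9 * M := by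
  have := c.2
  unfold cpos
  omega

/-- The centre with index `c`. -/
def ctr (M N : ℕ) (c : Fin (2 * M)) : Vx M N := p ⟨cpos c.val, cpos_lt c⟩

/-- Parents. -/
def par (M N : ℕ) : Vx M N → Vx M N
  | p i => p ⟨i.val - 1, by have := i.2; omega⟩
  | b c _ => ctr M N c
  | l c n => b c n

def rank (M N : ℕ) : Vx M N → ℕ
  | p i => i.val
  | b _ _ => 9 * M
  | l _ _ => 9 * M + 1

/-- The tree. -/
def TT (M N : ℕ) : SimpleGraph (Vx M N) := ofParent (par M N)

theorem adj_iff (M N : ℕ) (u v : Vx M N) :
    (TT M N).Adj u v ↔ u ≠ v ∧ (par M N u = v ∨ par M N v = u) := Iff.rfl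

theorem TT_isTree (M N : ℕ) (hM : 0 < M) : (TT M N).IsTree := by
  apply isTree (par M N) (p ⟨0, by omega⟩) (rank M N)
  · intro v hv
    cases v with
    | p i =>
      have hi : i.val ≠ 0 := by
        intro h
        apply hv
        congr 1
        exact Fin.ext h
      simp only [par, rank]
      omega
    | b c n =>
      simp only [par, rank, ctr]
      exact cpos_lt c
    | l c n => simp [par, rank]
  · simp [par]

/-- Position on the path. -/
def x (M N : ℕ) : Vx M N → ℤ
  | p i => i.val
  | b c _ => cpos c.val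
  | l c _ => cpos c.val

theorem x_adj (M N : ℕ) {u v : Vx M N} (h : (TT M N).Adj u v) :
    x M N v ≤ x M N u + 1 ∧ x M N u ≤ x M N v + 1 := by
  have key : ∀ w : Vx M N, x M N (par M N w) ≤ x M N w ∧ x M N w ≤ x M N (par M N w) + 1 := by
    intro w
    cases w with
    | p i => simp only [par, x]; constructor <;> omega
    | b c n => simp only [par, x, ctr]; constructor <;> omega
    | l c n => simp only [par, x]; constructor <;> omega
  rw [adj_iff] at h
  obtain ⟨_, h | h⟩ := h
  · have := key u
    rw [h] at this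
    constructor <;> omega
  · have := key v
    rw [h] at this
    constructor <;> omega

theorem x_walk (M N : ℕ) {u v : Vx M N} (q : (TT M N).Walk u v) :
    x M N v ≤ x M N u + q.length ∧ x M N u ≤ x M N v + q.length := by
  induction q with
  | nil => simp
  | cons h q ih =>
    have := x_adj M N h
    simp only [Walk.length_cons]
    push_cast
    constructor <;> omega

theorem x_dist (M N : ℕ) (hM : 0 < M) (u v : Vx M N) :
    x M N v ≤ x M N u + (TT M N).dist u v ∧ x M N u ≤ x M N v + (TT M N).dist u v := by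
  obtain ⟨q, hq⟩ := (TT_isTree M N hM).1.exists_walk_length_eq_dist u v
  have := x_walk M N q
  rw [hq] at this
  exact this

theorem path_up (M N : ℕ) : ∀ (n : ℕ) (i j : Fin (9 * M)), i.val + n = j.val →
    ∃ q : (TT M N).Walk (p i) (p j), q.length = n := by
  intro n
  induction n with
  | zero =>
    intro i j h
    have : i = j := Fin.ext (by omega)
    subst this
    exact ⟨Walk.nil, rfl⟩
  | succ n ih =>
    intro i j h
    have hj := j.2
    obtain ⟨q, hq⟩ := ih ⟨i.val + 1, by omega⟩ j (by simp; omega)
    have hadj : (TT M N).Adj (p i) (p ⟨i.val + 1, by omega⟩) := by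
      rw [adj_iff]
      refine ⟨?_, Or.inr ?_⟩
      · intro h'
        have := congrArg Fin.val (Vx.p.inj h')
        simp at this
      · simp [par]
    exact ⟨Walk.cons hadj q, by simp [hq]⟩

theorem path_dist (M N : ℕ) (i j : Fin (9 * M)) :
    (TT M N).dist (p i) (p j) ≤ (i.val - j.val) + (j.val - i.val) := by
  rcases le_total i.val j.val with h | h
  · obtain ⟨q, hq⟩ := path_up M N (j.val - i.val) i j (by omega)
    have := (TT M N).dist_le q
    omega
  · obtain ⟨q, hq⟩ := path_up M N (i.val - j.val) j i (by omega)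
    have := (TT M N).dist_le q.reverse
    rw [Walk.length_reverse] at this
    omega

theorem adj_bc (M N : ℕ) (c : Fin (2 * M)) (n : Fin N) : (TT M N).Adj (b c n) (ctr M N c) := by
  rw [adj_iff]
  exact ⟨by simp [ctr], Or.inl rfl⟩

theorem adj_lb (M N : ℕ) (c : Fin (2 * M)) (n : Fin N) : (TT M N).Adj (l c n) (b c n) := by
  rw [adj_iff]
  exact ⟨by simp, Or.inl rfl⟩

/-- Every vertex is within distance two of a centre. -/
theorem near_ctr (M N : ℕ) (hM : 0 < M) (v : Vx M N) : ∃ c, (TT M N).dist v (ctr M N c) ≤ 2 := by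
  cases v with
  | p i =>
    have hi := i.2
    by_cases h : i.val % 9 ≤ 4
    · refine ⟨⟨2 * (i.val / 9), by omega⟩, ?_⟩
      refine le_trans (path_dist M N _ _) ?_
      simp only [cpos]
      omega
    · refine ⟨⟨2 * (i.val / 9) + 1, by omega⟩, ?_⟩
      refine le_trans (path_dist M N _ _) ?_
      simp only [cpos]
      omega
  | b c n =>
    exact ⟨c, by have := dist_one (adj_bc M N c n); omega⟩
  | l c n =>
    refine ⟨c, ?_⟩
    have h1 := dist_one (adj_bc M N c n)
    have h2 := dist_one (adj_lb M N c n)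
    have h3 := (TT_isTree M N hM).1.dist_triangle (u := l c n) (v := b c n) (w := ctr M N c)
    omega

/-- Leaves are far from everything outside their pendant path. -/
theorem leaf_dist (M N : ℕ) (hM : 0 < M) (c : Fin (2 * M)) (n : Fin N) (v : Vx M N)
    (hvb : v ≠ b c n) (hvl : v ≠ l c n) :
    (TT M N).dist v (ctr M N c) + 2 ≤ (TT M N).dist (l c n) v := by
  have hc := (TT_isTree M N hM).1
  have nl : ∀ y, (TT M N).Adj (l c n) y → y = b c n := by
    intro y hy
    rw [adj_iff] at hy
    obtain ⟨_, h | h⟩ := hy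
    · exact h.symm
    · cases y with
      | p i => simp [par] at h
      | b c' n' => simp [par, ctr] at h
      | l c' n' => simp [par] at h
  have nb : ∀ y, (TT M N).Adj (b c n) y → y = ctr M N c ∨ y = l c n := by
    intro y hy
    rw [adj_iff] at hy
    obtain ⟨_, h | h⟩ := hy
    · left; exact h.symm
    · cases y with
      | p i => simp [par] at h
      | b c' n' => simp [par, ctr] at h
      | l c' n' =>
        right
        simp only [par, Vx.b.injEq] at h
        rw [h.1, h.2]
  have h1 : (TT M N).dist (b c n) v + 1 ≤ (TT M N).dist (l c n) v := by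
    obtain ⟨q, hq⟩ := hc.exists_walk_length_eq_dist (l c n) v
    cases q with
    | nil => exact absurd rfl hvl
    | cons h q =>
      rename_i y
      have hy := nl y h
      subst hy
      have := (TT M N).dist_le q
      simp only [Walk.length_cons] at hq
      omega
  have h2 : (TT M N).dist (ctr M N c) v + 1 ≤ (TT M N).dist (b c n) v := by
    obtain ⟨q, hq⟩ := hc.exists_walk_length_eq_dist (b c n) v
    cases q with
    | nil => exact absurd rfl hvb
    | cons h q =>
      rename_i y
      rcases nb y h with hy | hy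
      · subst hy
        have := (TT M N).dist_le q
        simp only [Walk.length_cons] at hq
        omega
      · subst hy
        have := (TT M N).dist_le q
        simp only [Walk.length_cons] at hq
        omega
  rw [(TT M N).dist_comm (u := v)]
  omega

theorem nontriv (M N : ℕ) (hM : 0 < M) : Nontrivial (Vx M N) :=
  ⟨p ⟨0, by omega⟩, p ⟨1, by omega⟩, by simp⟩

/-- Upper bound for `i_bn`. -/
theorem ibn_upper (M N : ℕ) (hM : 0 < M) : ibn (TT M N) ≤ 4 * M := by
  classical
  have hnt := nontriv M N hM
  have hc := (TT_isTree M N hM).1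
  let f : Vx M N → ℕ := fun v => if ∃ c, v = ctr M N c then 2 else 0
  have hfc : ∀ c, f (ctr M N c) = 2 := by
    intro c
    simp only [f]
    rw [if_pos ⟨c, rfl⟩]
  have hfp : ∀ v, 0 < f v → ∃ c, v = ctr M N c := by
    intro v hv
    by_contra h
    simp only [f] at hv
    rw [if_neg h] at hv
    omega
  have hxc : ∀ c, x M N (ctr M N c) = (cpos c.val : ℤ) := fun c => rfl
  have hfar : ∀ c c', c ≠ c' → 4 ≤ (TT M N).dist (ctr M N c) (ctr M N c') := by
    intro c c' hne
    have h1 := x_dist M N hM (ctr M N c) (ctr M N c')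
    rw [hxc, hxc] at h1
    have : c.val ≠ c'.val := fun h => hne (Fin.ext h)
    unfold cpos at h1
    push_cast at h1
    omega
  have hpart : ∀ c : Fin (2 * M), ∃ c' : Fin (2 * M), c' ≠ c ∧
      (TT M N).dist (ctr M N c') (ctr M N c) ≤ 4 := by
    intro c
    have hc2 := c.2
    by_cases h : c.val % 2 = 0
    · refine ⟨⟨c.val + 1, by omega⟩, ?_, ?_⟩
      · intro h'
        have := congrArg Fin.val h'
        simp at this
      · refine le_trans (path_dist M N _ _) ?_
        simp only [cpos]
        omega
    · refine ⟨⟨c.val - 1, by omega⟩, ?_, ?_⟩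
      · intro h'
        have := congrArg Fin.val h'
        simp at this
        omega
      · refine le_trans (path_dist M N _ _) ?_
        simp only [cpos]
        omega
  have hmax : MaxBn (TT M N) f := by
    apply maxBn_of hc
    · rw [isBroadcast_iff]
      intro v
      by_cases hv : 0 < f v
      · obtain ⟨c, rfl⟩ := hfp v hv
        rw [hfc]
        obtain ⟨c', hne, _⟩ := hpart c
        have h1 := hfar c' c hne
        have h2 := dist_le_ecc (G := TT M N) (ctr M N c') (ctr M N c)
        omega
      · omega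
    · intro u v hu hv huv
      obtain ⟨c, rfl⟩ := hfp u hu
      obtain ⟨c', rfl⟩ := hfp v hv
      rw [hfc, hfc]
      have := hfar c c' (fun h => huv (by rw [h]))
      omega
    · intro v
      obtain ⟨c, h⟩ := near_ctr M N hM v
      exact ⟨ctr M N c, by rw [hfc]; omega, by rw [hfc]; exact h⟩
    · intro v hv
      right
      obtain ⟨c, rfl⟩ := hfp v hv
      obtain ⟨c', hne, hd⟩ := hpart c
      refine ⟨ctr M N c', by rw [hfc]; omega, ?_, by rw [hfc, hfc]; exact hd⟩
      intro h
      have := hfar c' c hne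
      rw [h, SimpleGraph.dist_self] at this
      omega
  have hcost : cost f ≤ 4 * M := by
    have h1 : cost f = ∑ v ∈ univ.image (ctr M N), f v := by
      unfold cost
      symm
      apply Finset.sum_subset (Finset.subset_univ _)
      intro v _ hv
      by_contra hne
      obtain ⟨c, rfl⟩ := hfp v (Nat.pos_of_ne_zero hne)
      exact hv (Finset.mem_image.2 ⟨c, mem_univ _, rfl⟩)
    rw [h1]
    calc ∑ v ∈ univ.image (ctr M N), f v ≤ ∑ _v ∈ univ.image (ctr M N), 2 := by
          apply Finset.sum_le_sum
          intro v hv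
          obtain ⟨c, _, rfl⟩ := Finset.mem_image.1 hv
          rw [hfc]
      _ = (univ.image (ctr M N)).card * 2 := by simp
      _ ≤ (2 * M) * 2 := by
          apply Nat.mul_le_mul_right
          refine le_trans Finset.card_image_le ?_
          simp
      _ = 4 * M := by ring
  exact le_trans (Nat.sInf_le ⟨f, hmax, rfl⟩) hcost

/-- Counting centres in an interval. -/
theorem count_centres (M : ℕ) (C : Finset (Fin (2 * M))) (a e : ℤ)
    (hC : ∀ c ∈ C, a ≤ (cpos c.val : ℤ) ∧ (cpos c.val : ℤ) ≤ e) (hae : a ≤ e + 5) :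
    9 * (C.card : ℤ) ≤ 2 * (e - a) + 10 := by
  by_cases hne : C.Nonempty
  · have h1 := hC _ (C.min'_mem hne)
    have h2 := hC _ (C.max'_mem hne)
    have h3 : C ⊆ Finset.Icc (C.min' hne) (C.max' hne) := by
      intro c hc
      rw [Finset.mem_Icc]
      exact ⟨C.min'_le c hc, C.le_max' c hc⟩
    have h4 := Finset.card_le_card h3
    rw [Fin.card_Icc] at h4
    have h5 : (C.min' hne).val ≤ (C.max' hne).val := C.min'_le_max' hne
    unfold cpos at h1 h2
    push_cast at h1 h2
    have h6 : (C.card : ℤ) ≤ ((C.max' hne).val : ℤ) + 1 - (C.min' hne).val := by omega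
    omega
  · rw [Finset.not_nonempty_iff_eq_empty] at hne
    subst hne
    simp
    omega

section cluster

variable (M N : ℕ) (f : Vx M N → ℕ)

/-- Clusters with a short hull. -/
def GoodY (A Y : Finset (Vx M N)) : Prop :=
  Y ⊆ A ∧ 2 ≤ Y.card ∧ ∃ a e : ℤ,
    (∀ v ∈ Y, a ≤ x M N v - ((f v : ℤ) - 2) ∧ x M N v + ((f v : ℤ) - 2) ≤ e) ∧
    e - a ≤ 2 * (∑ v ∈ Y, (f v : ℤ)) - 3 - (Y.card : ℤ)

/-- Centres served by `A`. -/
noncomputable def served (A : Finset (Vx M N)) : Finset (Fin (2 * M)) := by
  classical
  exact univ.filter (fun c => ∃ v ∈ A, (cpos c.val : ℤ) ≤ x M N v + ((f v : ℤ) - 2) ∧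
    x M N v - ((f v : ℤ) - 2) ≤ cpos c.val)

theorem mem_served (A : Finset (Vx M N)) (c : Fin (2 * M)) : c ∈ served M N f A ↔
    ∃ v ∈ A, (cpos c.val : ℤ) ≤ x M N v + ((f v : ℤ) - 2) ∧
      x M N v - ((f v : ℤ) - 2) ≤ cpos c.val := by
  classical
  simp [served]

theorem cluster_bound (hM : 0 < M) (hf2 : ∀ v, 0 < f v → 2 ≤ f v)
    (hH : HIndep (TT M N) f)
    (hpar : ∀ v, 0 < f v → ∃ u, 0 < f u ∧ u ≠ v ∧ (TT M N).dist u v ≤ f v + 1) :
    ∀ (n : ℕ) (A : Finset (Vx M N)), A.card = n → (∀ v ∈ A, 0 < f v) →
      (∀ v ∈ A, ∀ u, 0 < f u → u ≠ v → ((TT M N).dist u v ≤ f v + 1 ∨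
        (TT M N).dist u v ≤ f u + 1) → u ∈ A) →
      9 * ((served M N f A).card : ℤ) ≤ 4 * ∑ v ∈ A, (f v : ℤ) := by
  classical
  intro n
  induction n using Nat.strong_induction_on with
  | _ n ih =>
  intro A hAn hApos hAcl
  by_cases hemp : A = ∅
  · subst hemp
    have : served M N f ∅ = ∅ := by
      ext c
      rw [mem_served]
      simp
    rw [this]
    simp
  obtain ⟨v0, hv0⟩ := Finset.nonempty_iff_ne_empty.2 hemp
  -- a good pair
  have hbase : ∃ Y, GoodY M N f A Y := by
    have hp0 := hApos v0 hv0
    obtain ⟨u, hu, huv, hd⟩ := hpar v0 hp0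
    have huA : u ∈ A := hAcl v0 hv0 u hu huv (Or.inl hd)
    have hfu2 := hf2 u hu
    have hfv2 := hf2 v0 hp0
    have hx := x_dist M N hM u v0
    have hcard : ({v0, u} : Finset (Vx M N)).card = 2 := Finset.card_pair huv.symm
    refine ⟨{v0, u}, ?_, by omega,
      min (x M N v0 - ((f v0 : ℤ) - 2)) (x M N u - ((f u : ℤ) - 2)),
      max (x M N v0 + ((f v0 : ℤ) - 2)) (x M N u + ((f u : ℤ) - 2)), ?_, ?_⟩
    · intro t ht
      simp only [Finset.mem_insert, Finset.mem_singleton] at ht
      rcases ht with rfl | rfl <;> assumption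
    · intro t ht
      simp only [Finset.mem_insert, Finset.mem_singleton] at ht
      rcases ht with rfl | rfl
      · exact ⟨min_le_left _ _, le_max_left _ _⟩
      · exact ⟨min_le_right _ _, le_max_right _ _⟩
    · rw [hcard, Finset.sum_pair huv.symm]
      push_cast
      omega
  -- maximal good Y
  obtain ⟨Y, hY, hmax⟩ : ∃ Y, GoodY M N f A Y ∧ ∀ Y', GoodY M N f A Y' → Y'.card ≤ Y.card := by
    obtain ⟨Y, hY, hmax⟩ := Finset.exists_max_image
      ((Finset.univ : Finset (Finset (Vx M N))).filter (fun Y => GoodY M N f A Y)) Finset.card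
      (by obtain ⟨Y, hY⟩ := hbase; exact ⟨Y, by simp [hY]⟩)
    refine ⟨Y, (Finset.mem_filter.1 hY).2, ?_⟩
    intro Y' hY'
    exact hmax Y' (by simp [hY'])
  obtain ⟨hYA, hY2, a, e, hae1, hae2⟩ := hY
  -- Y is closed in A
  have hclosed : ∀ y ∈ Y, ∀ w ∈ A, w ∉ Y →
      ¬ ((TT M N).dist w y ≤ f y + 1 ∨ (TT M N).dist w y ≤ f w + 1) := by
    intro y hy w hw hwY hrel
    have hwy : w ≠ y := by rintro rfl; exact hwY hy
    have hfw := hApos w hw
    have hfy := hApos y (hYA hy)
    have hfw2 := hf2 w hfw
    have hfy2 := hf2 y hfy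
    have hx := x_dist M N hM w y
    obtain ⟨ha, he⟩ := hae1 y hy
    -- neither hears the other
    have h1 : f y < (TT M N).dist w y := by
      by_contra hle
      push Not at hle
      exact hH w y hfw hwy ⟨hfy, hle⟩
    have h2 : f w < (TT M N).dist w y := by
      by_contra hle
      push Not at hle
      exact hH y w hfy hwy.symm ⟨hfw, by rw [(TT M N).dist_comm]; exact hle⟩
    have hsumpos : (Y.card : ℤ) ≤ 2 * ∑ v ∈ Y, (f v : ℤ) - 2 := by
      have h3 : ∑ _v ∈ Y, (2 : ℤ) ≤ ∑ v ∈ Y, (f v : ℤ) := by
        apply Finset.sum_le_sum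
        intro v hv
        exact_mod_cast hf2 v (hApos v (hYA hv))
      rw [Finset.sum_const, nsmul_eq_mul] at h3
      have h4 : (2 : ℤ) ≤ Y.card := by exact_mod_cast hY2
      linarith
    have hnew : GoodY M N f A (insert w Y) := by
      refine ⟨?_, ?_, min a (x M N w - ((f w : ℤ) - 2)), max e (x M N w + ((f w : ℤ) - 2)),
        ?_, ?_⟩
      · intro t ht
        rcases Finset.mem_insert.1 ht with rfl | ht
        · exact hw
        · exact hYA ht
      · rw [Finset.card_insert_of_notMem hwY]; omega
      · intro t ht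
        rcases Finset.mem_insert.1 ht with rfl | ht
        · exact ⟨min_le_right _ _, le_max_right _ _⟩
        · have := hae1 t ht
          exact ⟨le_trans (min_le_left _ _) this.1, le_trans this.2 (le_max_left _ _)⟩
      · rw [Finset.card_insert_of_notMem hwY, Finset.sum_insert hwY]
        push_cast
        omega
    have := hmax _ hnew
    rw [Finset.card_insert_of_notMem hwY] at this
    omega
  -- bound for Y
  have hYbound : 9 * ((served M N f Y).card : ℤ) ≤ 4 * ∑ v ∈ Y, (f v : ℤ) := by
    have hY2' : (2 : ℤ) ≤ Y.card := by exact_mod_cast hY2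
    have hne : Y.Nonempty := Finset.card_pos.1 (by omega)
    obtain ⟨y, hy⟩ := hne
    have hy1 := hae1 y hy
    have hfy2 := hf2 y (hApos y (hYA hy))
    have h1 := count_centres M (served M N f Y) a e (by
      intro c hc
      rw [mem_served] at hc
      obtain ⟨v, hv, hv1, hv2⟩ := hc
      have := hae1 v hv
      constructor <;> omega) (by omega)
    linarith
  -- the rest
  have hYpos : 0 < Y.card := by omega
  have hcard : (A \ Y).card + Y.card = A.card := card_sdiff_add_card_eq_card hYA
  have hrest := ih (A \ Y).card (by omega) (A \ Y) rfl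
    (fun v hv => hApos v (mem_sdiff.1 hv).1)
    (by
      intro v hv u hu huv hrel
      obtain ⟨hvA, hvY⟩ := mem_sdiff.1 hv
      refine mem_sdiff.2 ⟨hAcl v hvA u hu huv hrel, ?_⟩
      intro huY
      apply hclosed u huY v hvA hvY
      rw [(TT M N).dist_comm] at hrel
      exact hrel.symm)
  have hserved : (served M N f A).card ≤ (served M N f Y).card + (served M N f (A \ Y)).card := by
    have : served M N f A ⊆ served M N f Y ∪ served M N f (A \ Y) := by
      intro c hc
      rw [mem_served] at hc
      obtain ⟨v, hv, h⟩ := hc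
      rw [Finset.mem_union]
      by_cases hvY : v ∈ Y
      · left; rw [mem_served]; exact ⟨v, hvY, h⟩
      · right; rw [mem_served]; exact ⟨v, mem_sdiff.2 ⟨hv, hvY⟩, h⟩
    exact le_trans (Finset.card_le_card this) (Finset.card_union_le _ _)
  have hsum : ∑ v ∈ A, (f v : ℤ) = ∑ v ∈ A \ Y, (f v : ℤ) + ∑ v ∈ Y, (f v : ℤ) :=
    (Finset.sum_sdiff hYA).symm
  have hserved' : ((served M N f A).card : ℤ) ≤
      ((served M N f Y).card : ℤ) + ((served M N f (A \ Y)).card : ℤ) := by exact_mod_cast hserved
  linarith

end cluster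

/-- Lower bound for `i_h`. -/
theorem ih_lower (M N : ℕ) (hM : 0 < M) (hN : 5 * M ≤ N) : 18 * M ≤ 4 * ih (TT M N) + 2 := by
  classical
  have hnt := nontriv M N hM
  have hc := (TT_isTree M N hM).1
  have hset : {c | ∃ f : Vx M N → ℕ, MaxH (TT M N) f ∧ cost f = c}.Nonempty := by
    obtain ⟨f, hf⟩ := maxH_exists hc
    exact ⟨_, f, hf, rfl⟩
  obtain ⟨f, hf, hcost⟩ := Nat.sInf_mem hset
  unfold ih
  rw [← hcost]
  by_cases hbig : N ≤ cost f
  · omega
  push Not at hbig
  have hcov := maxH_cover hc hf
  -- all centres are served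
  have hserve : ∀ c, ∃ v, 0 < f v ∧ (TT M N).dist v (ctr M N c) + 2 ≤ f v := by
    intro c
    by_contra hno
    push Not at hno
    have h1 : ∀ n : Fin N, 1 ≤ f (b c n) + f (l c n) := by
      intro n
      obtain ⟨v, hv, hd⟩ := hcov (l c n)
      by_cases hvb : v = b c n
      · rw [hvb] at hv; omega
      · by_cases hvl : v = l c n
        · rw [hvl] at hv; omega
        · have h2 := leaf_dist M N hM c n v hvb hvl
          have h3 := hno v hv
          omega
    have h2 : N ≤ ∑ n : Fin N, (f (b c n) + f (l c n)) := by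
      calc N = ∑ _n : Fin N, 1 := by simp
        _ ≤ ∑ n : Fin N, (f (b c n) + f (l c n)) := Finset.sum_le_sum fun n _ => h1 n
    have h3 : ∑ n : Fin N, (f (b c n) + f (l c n)) ≤ cost f := by
      rw [Finset.sum_add_distrib]
      have e1 : ∑ n : Fin N, f (b c n) = ∑ v ∈ univ.image (fun n : Fin N => b c n), f v := by
        rw [Finset.sum_image]
        intro a _ a' _ h
        exact (Vx.b.inj h).2
      have e2 : ∑ n : Fin N, f (l c n) = ∑ v ∈ univ.image (fun n : Fin N => l c n), f v := by
        rw [Finset.sum_image]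
        intro a _ a' _ h
        exact (Vx.l.inj h).2
      rw [e1, e2, ← Finset.sum_union]
      · exact Finset.sum_le_sum_of_subset (Finset.subset_univ _)
      · rw [Finset.disjoint_left]
        intro a ha hb
        obtain ⟨n, _, rfl⟩ := Finset.mem_image.1 ha
        obtain ⟨n', _, h'⟩ := Finset.mem_image.1 hb
        cases h'
    omega
  -- every broadcasting vertex serves a centre, so has strength at least two
  have hf2 : ∀ v, 0 < f v → 2 ≤ f v := by
    intro v hv
    obtain ⟨c, hcd⟩ := near_ctr M N hM v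
    obtain ⟨w, hw, hwd⟩ := hserve c
    by_cases hwv : w = v
    · subst hwv; omega
    · exfalso
      apply hf.2.1 v w hv (Ne.symm hwv)
      refine ⟨hw, ?_⟩
      have h1 := hc.dist_triangle (u := v) (v := ctr M N c) (w := w)
      rw [(TT M N).dist_comm (u := ctr M N c) (v := w)] at h1
      omega
  have hxc : ∀ c, x M N (ctr M N c) = (cpos c.val : ℤ) := fun c => rfl
  have hpos : ∀ c v, (TT M N).dist v (ctr M N c) + 2 ≤ f v →
      (cpos c.val : ℤ) ≤ x M N v + ((f v : ℤ) - 2) ∧
        x M N v - ((f v : ℤ) - 2) ≤ cpos c.val := by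
    intro c v h
    have h1 := x_dist M N hM v (ctr M N c)
    rw [hxc] at h1
    constructor <;> omega
  by_cases hone : ∃ v, 0 < f v ∧ ∀ u, 0 < f u → u = v
  · -- a single broadcasting vertex
    obtain ⟨v, hv, hall⟩ := hone
    have h1 : ∀ c, (TT M N).dist v (ctr M N c) + 2 ≤ f v := by
      intro c
      obtain ⟨u, hu, hd⟩ := hserve c
      rw [hall u hu] at hd
      exact hd
    have h2 := hpos ⟨0, by omega⟩ v (h1 _)
    have h3 := hpos ⟨2 * M - 1, by omega⟩ v (h1 _)
    have h4 : f v ≤ cost f := Finset.single_le_sum (fun _ _ => Nat.zero_le _) (mem_univ v)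
    simp only [cpos] at h2 h3
    push_cast at h2 h3
    omega
  · push Not at hone
    have hpar : ∀ v, 0 < f v → ∃ u, 0 < f u ∧ u ≠ v ∧ (TT M N).dist u v ≤ f v + 1 := by
      intro v hv
      rcases maxH_partner hf v hv with h | h
      · obtain ⟨u, hu, huv⟩ := hone v hv
        exact absurd (h u hu) huv
      · exact h
    let S : Finset (Vx M N) := univ.filter (fun v => 0 < f v)
    have hS : ∀ v, v ∈ S ↔ 0 < f v := by intro v; simp [S]
    have h1 := cluster_bound M N f hM hf2 hf.2.1 hpar S.card S rfl
      (fun v hv => (hS v).1 hv) (fun v _ u hu _ _ => (hS u).2 hu)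
    have h2 : served M N f S = univ := by
      ext c
      rw [mem_served]
      simp only [Finset.mem_univ, iff_true]
      obtain ⟨v, hv, hd⟩ := hserve c
      exact ⟨v, (hS v).2 hv, hpos c v hd⟩
    have h3 : ∑ v ∈ S, (f v : ℤ) = (cost f : ℤ) := by
      unfold cost
      push_cast
      apply Finset.sum_subset (Finset.subset_univ _)
      intro v _ hv
      by_contra hne
      apply hv
      rw [hS]
      exact Nat.pos_of_ne_zero (by exact_mod_cast hne)
    rw [h2, h3, Finset.card_univ, Fintype.card_fin] at h1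
    push_cast at h1
    omega

/-- **Main result.**  For every `k` there is a finite tree `T` with
`i_h(T) - i_bn(T) ≥ k`. -/
theorem result (k : ℕ) : ∃ (V : Type) (_ : Fintype V) (T : SimpleGraph V), T.IsTree ∧
    ibn T + k ≤ ih T := by
  refine ⟨Vx (2 * k + 1) (5 * (2 * k + 1)), inferInstance, TT _ _, TT_isTree _ _ (by omega), ?_⟩
  have h1 := ibn_upper (2 * k + 1) (5 * (2 * k + 1)) (by omega)
  have h2 := ih_lower (2 * k + 1) (5 * (2 * k + 1)) (by omega) le_rfl
  omega

end Pool.Agent.Results.MP_511249_co.UnboundedOnTrees
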